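import Mathlib
import Pool.Agent.Y567.GJ.Main

/-!
# The group jump of a group jump is not a group jump

Let `G` and `H` be infinite countable groups and let `E` be a smooth equivalence relation with at least
two classes on a Polish space (for example equality on a discrete space with two points). Then
`(E^[G])^[H]` is not Borel reducible to `E^[K]` for any countable group `K`.
-/

set_option autoImplicit false

namespace Pool.Agent.Results.MP_9b97c3_lc.JumpOfJump

open Pool.Agent.Y567.GJ

theorem result (G H : Type) [Group G] [Countable G] [Infinite G] [Group H] [Countable H] [Infinite H]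
    (X : Type) [TopologicalSpace X] [PolishSpace X] [MeasurableSpace X] [BorelSpace X]
    (E : X → X → Prop) (hE : Equivalence E) (hne : ∃ x y, ¬ E x y)
    (hsm : ∃ θ : X → ℝ, Measurable θ ∧ ∀ x y, E x y ↔ θ x = θ y)
    (K : Type) [Group K] [Countable K] :
    ¬ Red (Jump H (Jump G E)) (Jump K E) := by
  rintro ⟨f, hf, hred⟩
  obtain ⟨x₀, x₁, hx⟩ := hne
  obtain ⟨θ, hθ, hθE⟩ := hsm
  let ι : Bool → X := fun b => cond b x₁ x₀
  have hι : ∀ a b : Bool, a = b ↔ E (ι a) (ι b) := by
    intro a b
    constructor
    · rintro rfl
      exact hE.refl _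
    · intro h
      cases a <;> cases b
      · rfl
      · exact absurd h hx
      · exact absurd (hE.symm h) hx
      · rfl
  let F : (H → G → Bool) → (K → ℝ) := fun z k => θ (f (fun h g => ι (z h g)) k)
  have hm0 : Measurable fun z : H → G → Bool => (fun h g => ι (z h g) : H → G → X) := by
    refine measurable_pi_lambda _ fun h => measurable_pi_lambda _ fun g => ?_
    have h1 : Measurable fun z : H → G → Bool => z h g :=
      (measurable_pi_apply g).comp (measurable_pi_apply h)
    exact (Measurable.of_discrete (f := ι)).comp h1
  have hF : Measurable F := by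
    refine measurable_pi_lambda _ fun k => ?_
    exact hθ.comp ((measurable_pi_apply k).comp (hf.comp hm0))
  refine not_red (G := G) (H := H) (Y := K → ℝ) (ι := K) (Jump K (Eq : ℝ → ℝ → Prop))
    (fun k y h => y (k⁻¹ * h)) ?_ ?_ F hF ?_
  · intro k
    exact measurable_pi_lambda _ fun h => measurable_pi_apply _
  · rintro y y' ⟨k, hk⟩
    exact ⟨k, funext hk⟩
  · intro z z'
    have h1 : Jump H (Jump G (Eq : Bool → Bool → Prop)) z z' ↔
        Jump H (Jump G E) (fun h g => ι (z h g)) (fun h g => ι (z' h g)) := by
      unfold Jump
      simp only [hι]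
    rw [h1, hred]
    unfold Jump
    simp only [hθE, F]

end Pool.Agent.Results.MP_9b97c3_lc.JumpOfJump
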